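import Pool.Agent.W186.AI.Spec

set_option autoImplicit false

namespace Pool.Agent.W480.AI.ENU

open Complex Filter Topology Metric Set Pool.Agent.W186.AI
open scoped Real

noncomputable def sg (a t : ℝ) : ℂ := 1 / 2 + (a : ℂ) + I * (t : ℂ)

lemma sg_re (a t : ℝ) : (sg a t).re = 1 / 2 + a := by simp [sg]

lemma sg_im (a t : ℝ) : (sg a t).im = t := by simp [sg]

lemma sg_conj (a t : ℝ) : (starRingEnd ℂ) (sg a t) = 1 / 2 + (a : ℂ) - I * (t : ℂ) := by
  apply Complex.ext <;> simp [sg]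

lemma one_lt (a t : ℝ) (ha : 1 / 2 < a) : 1 < (sg a t).re := by rw [sg_re]; linarith

lemma ell_diff (hg : S_GAM) (hz : S_ZET) {s : ℂ} (hs : 1 < s.re) : DifferentiableAt ℂ ell s := by
  have hO : IsOpen {s : ℂ | 1 < s.re} := isOpen_lt continuous_const Complex.continuous_re
  have h1 : DifferentiableAt ℂ g s := (hg.1 s hs).differentiableAt (hO.mem_nhds hs)
  have h2 : DifferentiableAt ℂ Z s := (hz.1 s hs).differentiableAt (hO.mem_nhds hs)
  exact h1.add h2

lemma g_diff (hg : S_GAM) {s : ℂ} (hs : 1 < s.re) : DifferentiableAt ℂ g s := by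
  have hO : IsOpen {s : ℂ | 1 < s.re} := isOpen_lt continuous_const Complex.continuous_re
  exact (hg.1 s hs).differentiableAt (hO.mem_nhds hs)

lemma ell_conj (hg : S_GAM) (hz : S_ZET) {s : ℂ} (hs : 1 < s.re) :
    ell ((starRingEnd ℂ) s) = (starRingEnd ℂ) (ell s) := by
  unfold ell
  rw [hg.2.2 s hs, hz.2.2.1 s hs, map_add]

noncomputable def F (a t : ℝ) : ℝ := (ell (sg a t)).im

lemma GG_eq (hg : S_GAM) (hz : S_ZET) (a t : ℝ) (ha : 1 / 2 < a) :
    GG (a : ℂ) (t : ℂ) = ((F a t : ℝ) : ℂ) := by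
  unfold GG
  rw [← sg_conj]
  change (ell (sg a t) - ell ((starRingEnd ℂ) (sg a t))) / (2 * I) = _
  rw [ell_conj hg hz (one_lt a t ha), Complex.sub_conj]
  unfold F
  push_cast
  field_simp

lemma sg_deriv (a t : ℝ) : HasDerivAt (fun t : ℝ => sg a t) I t := by
  unfold sg
  have h : HasDerivAt (fun t : ℝ => (t : ℂ)) 1 t := Complex.ofRealCLM.hasDerivAt
  simpa using (h.const_mul I).const_add (1 / 2 + (a : ℂ))

lemma im_deriv (f : ℂ → ℂ) (a t : ℝ) (hf : DifferentiableAt ℂ f (sg a t)) :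
    HasDerivAt (fun t : ℝ => (f (sg a t)).im) (deriv f (sg a t)).re t := by
  have h1 := hf.hasDerivAt.scomp t (sg_deriv a t)
  have h2 := Complex.imCLM.hasFDerivAt.comp_hasDerivAt t h1
  simpa [Function.comp_def, smul_eq_mul, Complex.mul_im] using h2

lemma F_deriv (hg : S_GAM) (hz : S_ZET) (a t : ℝ) (ha : 1 / 2 < a) :
    HasDerivAt (F a) (deriv ell (sg a t)).re t :=
  im_deriv ell a t (ell_diff hg hz (one_lt a t ha))

lemma F_mono (hg : S_GAM) (hz : S_ZET) (hm : S_MON) (a : ℝ) (ha : 1 / 2 < a) : StrictMono (F a) :=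
  strictMono_of_hasDerivAt_pos (fun t => F_deriv hg hz a t ha)
    (fun t => hm _ (one_lt a t ha))

lemma F_cont (hg : S_GAM) (hz : S_ZET) (a : ℝ) (ha : 1 / 2 < a) : Continuous (F a) :=
  continuous_iff_continuousAt.2 fun t => (F_deriv hg hz a t ha).continuousAt

lemma F_zero (hg : S_GAM) (hz : S_ZET) (a : ℝ) (ha : 1 / 2 < a) : F a 0 = 0 := by
  have h := ell_conj hg hz (one_lt a 0 ha)
  have h2 : (starRingEnd ℂ) (sg a 0) = sg a 0 := by
    rw [sg_conj]; simp [sg]
  rw [h2] at h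
  exact Complex.conj_eq_iff_im.1 h.symm

lemma F_large (hg : S_GAM) (h1 : S_GD1) (hz : S_ZET) (a : ℝ) (ha : 1 / 2 < a) (M : ℝ) :
    ∃ T : ℝ, 0 ≤ T ∧ M ≤ F a T := by
  obtain ⟨C, hC⟩ := h1
  obtain ⟨D, hD⟩ := hz.2.2.2 (1 / 2 + a) (by linarith)
  set T0 : ℝ := max 1 (Real.exp (2 * (C + 1))) with hT0
  have hT1 : 1 ≤ T0 := le_max_left _ _
  have hder : ∀ t : ℝ, T0 ≤ t → 1 ≤ (deriv g (sg a t)).re := by
    intro t ht
    have hs := one_lt a t ha
    have ht1 : 1 ≤ t := le_trans hT1 ht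
    have habs : 1 ≤ |(sg a t).im| := by rw [sg_im]; exact le_trans ht1 (le_abs_self t)
    have h := hC (sg a t) hs (Or.inr habs)
    have h' : |(deriv g (sg a t) - log (sg a t) / 2).re| ≤ C :=
      le_trans (Complex.abs_re_le_norm _) h
    have hlog : (log (sg a t) / 2).re = Real.log ‖sg a t‖ / 2 := by
      have : log (sg a t) / 2 = log (sg a t) / ((2 : ℝ) : ℂ) := by norm_num
      rw [this, Complex.div_ofReal_re, Complex.log_re]
    have hn : t ≤ ‖sg a t‖ := by
      have := Complex.abs_im_le_norm (sg a t)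
      rw [sg_im] at this
      exact le_trans (le_abs_self t) this
    have hl : 2 * (C + 1) ≤ Real.log ‖sg a t‖ := by
      rw [Real.le_log_iff_exp_le (by linarith)]
      exact le_trans (le_max_right _ _) (le_trans ht hn)
    rw [Complex.sub_re, hlog] at h'
    have := (abs_le.1 h').1
    linarith
  have hH : ∀ t : ℝ, HasDerivAt (fun t : ℝ => (g (sg a t)).im) (deriv g (sg a t)).re t :=
    fun t => im_deriv g a t (g_diff hg (one_lt a t ha))
  have key : ∀ t : ℝ, T0 ≤ t → 1 * (t - T0) ≤ (g (sg a t)).im - (g (sg a T0)).im := by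
    intro t ht
    refine Convex.mul_sub_le_image_sub_of_le_deriv (D := Ici T0) (f := fun t : ℝ => (g (sg a t)).im)
      (convex_Ici T0) ?_ ?_ (C := 1) ?_ T0 (Set.mem_Ici.2 le_rfl) t ht ht
    · exact fun x _ => (hH x).continuousAt.continuousWithinAt
    · exact fun x _ => (hH x).differentiableAt.differentiableWithinAt
    · intro x hx
      rw [interior_Ici] at hx
      rw [(hH x).deriv]
      exact hder x (le_of_lt hx)
  set T : ℝ := T0 + |M - (g (sg a T0)).im + D| with hT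
  have hTT : T0 ≤ T := by rw [hT]; linarith [abs_nonneg (M - (g (sg a T0)).im + D)]
  refine ⟨T, by linarith, ?_⟩
  have k := key T hTT
  have hZ : |(Z (sg a T)).im| ≤ D :=
    le_trans (Complex.abs_im_le_norm _) (hD _ (by rw [sg_re]))
  have hZ2 := (abs_le.1 hZ).1
  have hF : F a T = (g (sg a T)).im + (Z (sg a T)).im := by
    unfold F ell
    rw [Complex.add_im]
  have hab := le_abs_self (M - (g (sg a T0)).im + D)
  rw [hF]
  have : T - T0 = |M - (g (sg a T0)).im + D| := by rw [hT]; ring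
  linarith

lemma yy_pos (n : ℕ) : 0 < yy n := by
  unfold yy
  positivity

lemma exists_tau (hg : S_GAM) (h1 : S_GD1) (hz : S_ZET) (a : ℝ) (ha : 1 / 2 < a)
    (n : ℕ) : ∃ t : ℝ, 0 < t ∧ F a t = yy n := by
  obtain ⟨T, hT0, hT⟩ := F_large hg h1 hz a ha (yy n)
  have hy := yy_pos n
  have h := intermediate_value_Icc hT0 (F_cont hg hz a ha).continuousOn
  rw [F_zero hg hz a ha] at h
  obtain ⟨t, ht, hFt⟩ := h ⟨hy.le, hT⟩
  refine ⟨t, lt_of_le_of_ne ht.1 ?_, hFt⟩
  rintro rfl
  rw [F_zero hg hz a ha] at hFt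
  linarith

lemma X_eq (hg : S_GAM) (hz : S_ZET) (a t : ℝ) (ha : 1 / 2 < a) :
    X a t = Real.exp (ell (sg a t)).re * Real.cos (F a t) := by
  have hs := one_lt a t ha
  have hne : sg a t ≠ 0 := by
    intro h
    rw [h] at hs
    simp at hs
    linarith
  have hG : Gammaℝ (sg a t) ≠ 0 := Gammaℝ_ne_zero_of_re_pos (by linarith)
  have hc : completedRiemannZeta (sg a t) = Gammaℝ (sg a t) * riemannZeta (sg a t) := by
    rw [riemannZeta_def_of_ne_zero hne]
    field_simp
  have h : X a t = (cexp (ell (sg a t))).re := by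
    unfold X
    change ((sg a t) * (sg a t - 1) * completedRiemannZeta (sg a t)).re = _
    rw [hc]
    unfold ell
    rw [Complex.exp_add, hg.2.1 _ hs, hz.2.1 _ hs]
    ring_nf
  rw [h, Complex.exp_re]
  rfl

theorem main (hg : S_GAM) (h1 : S_GD1) (hz : S_ZET) (hm : S_MON) : S_ENU := by
  classical
  choose! τ hτ using fun (n : ℕ) (a : ℝ) (ha : 1 / 2 < a) => exists_tau hg h1 hz a ha n
  have huniq : ∀ (n : ℕ) (a t : ℝ), 1 / 2 < a → F a t = yy n → t = τ n a := by
    intro n a t ha h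
    exact (F_mono hg hz hm a ha).injective (h.trans (hτ n a ha).2.symm)
  refine ⟨τ, ?_, ?_, ?_, ?_⟩
  · intro n a ha
    refine ⟨(hτ n a ha).1, ?_⟩
    rw [GG_eq hg hz a _ ha, (hτ n a ha).2]
  · intro n a t ha _ h
    rw [GG_eq hg hz a _ ha] at h
    exact huniq n a t ha (by exact_mod_cast h)
  · intro a t ha ht hX
    rw [X_eq hg hz a t ha] at hX
    have hcos : Real.cos (F a t) = 0 := by
      rcases mul_eq_zero.1 hX with h | h
      · exact absurd h (Real.exp_pos _).ne'
      · exact h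
    rw [Real.cos_eq_zero_iff] at hcos
    obtain ⟨k, hk⟩ := hcos
    have hpos : 0 < F a t := by
      have := F_mono hg hz hm a ha ht
      rwa [F_zero hg hz a ha] at this
    have hk0 : 0 ≤ k := by
      by_contra hneg
      rw [not_le] at hneg
      have h1 : (k : ℝ) ≤ -1 := by exact_mod_cast Int.le_sub_one_of_lt hneg
      have hpi := Real.pi_pos
      rw [hk] at hpos
      nlinarith
    refine ⟨k.toNat, huniq _ a t ha ?_⟩
    rw [hk]
    unfold yy
    have : ((k.toNat : ℕ) : ℝ) = (k : ℝ) := by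
      have h := Int.toNat_of_nonneg hk0
      exact_mod_cast h
    rw [this]
    ring
  · intro n a ha
    rw [X_eq hg hz a _ ha, (hτ n a ha).2]
    have : Real.cos (yy n) = 0 := by
      rw [Real.cos_eq_zero_iff]
      refine ⟨(n : ℤ), ?_⟩
      unfold yy
      push_cast
      ring
    rw [this, mul_zero]

end Pool.Agent.W480.AI.ENU
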